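import Pool.Agent.H7.KQ.Stmts

/-! # Row BRK of board `kq`: broken transversals -/

set_option autoImplicit false

open Finset

namespace Pool.KQ

open Pool.Agent.H23.KT Pool.Agent.H46.KW

namespace Brk

variable {V : Type} [DecidableEq V]

open Classical in
/-- The transversals broken at the pair `i k`. -/
noncomputable def bro (G : SimpleGraph V) {b : ℕ} (P : Fin b → Finset V) (i k : Fin b) :
    Finset (Fin b → V) :=
  (Fintype.piFinset P).filter (fun f => ¬ G.Adj (f i) (f k))

theorem card_fib {b : ℕ} (P : Fin b → Finset V) {i k : Fin b} (hik : k ≠ i) {u y : V}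
    (hu : u ∈ P i) (hy : y ∈ P k) :
    ((Fintype.piFinset P).filter (fun f => f i = u ∧ f k = y)).card =
      ∏ l ∈ (univ.erase i).erase k, (P l).card := by
  have h1 : (Fintype.piFinset P).filter (fun f => f i = u ∧ f k = y) =
      Fintype.piFinset (fun l => if l = i then {u} else if l = k then {y} else P l) := by
    ext f
    simp only [mem_filter, Fintype.mem_piFinset]
    constructor
    · rintro ⟨h, h2, h3⟩ l
      by_cases hl : l = i
      · subst hl
        simp [h2]
      · by_cases hk : l = k
        · subst hk
          simp [hl, h3]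
        · simp [hl, hk, h l]
    · intro h
      have hi := h i
      have hk := h k
      simp only [if_true, mem_singleton] at hi
      rw [if_neg hik, if_pos rfl, mem_singleton] at hk
      refine ⟨fun l => ?_, hi, hk⟩
      by_cases hl : l = i
      · subst hl
        rw [hi]; exact hu
      · by_cases hlk : l = k
        · subst hlk
          rw [hk]; exact hy
        · have := h l
          rw [if_neg hl, if_neg hlk] at this
          exact this
  rw [h1, Fintype.card_piFinset]
  rw [← Finset.mul_prod_erase univ _ (mem_univ i)]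
  rw [← Finset.mul_prod_erase (univ.erase i) _ (mem_erase.mpr ⟨hik, mem_univ k⟩)]
  rw [if_pos rfl, card_singleton, one_mul, if_neg hik, if_pos rfl, card_singleton, one_mul]
  refine Finset.prod_congr rfl fun l hl => ?_
  rw [mem_erase, mem_erase] at hl
  rw [if_neg hl.2.1, if_neg hl.1]

theorem card_bro (G : SimpleGraph V) {b : ℕ} (P : Fin b → Finset V) {i k : Fin b} (hik : k ≠ i) :
    (bro G P i k).card =
      (∑ u ∈ P i, (non G (P k) u).card) * ∏ l ∈ (univ.erase i).erase k, (P l).card := by
  classical
  have h1 : (bro G P i k).card =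
      ∑ q ∈ (P i).sigma (fun u => non G (P k) u),
        ((bro G P i k).filter (fun f => (⟨f i, f k⟩ : Σ _ : V, V) = q)).card := by
    refine Finset.card_eq_sum_card_fiberwise ?_
    intro f hf
    have hf' : f ∈ bro G P i k := hf
    unfold bro at hf'
    rw [mem_filter, Fintype.mem_piFinset] at hf'
    have : (⟨f i, f k⟩ : Σ _ : V, V) ∈ (P i).sigma (fun u => non G (P k) u) := by
      rw [mem_sigma]
      refine ⟨hf'.1 i, ?_⟩
      unfold non
      rw [mem_filter]
      exact ⟨hf'.1 k, hf'.2⟩
    exact this
  rw [h1, Finset.sum_congr rfl (g := fun _ => ∏ l ∈ (univ.erase i).erase k, (P l).card)]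
  · rw [Finset.sum_const, smul_eq_mul, Finset.card_sigma]
  · rintro ⟨u, y⟩ hq
    rw [mem_sigma] at hq
    have hq2 : y ∈ non G (P k) u := hq.2
    unfold non at hq2
    rw [mem_filter] at hq2
    rw [← card_fib P hik hq.1 hq2.1]
    refine congrArg Finset.card ?_
    ext f
    unfold bro
    simp only [mem_filter, Sigma.mk.injEq, heq_eq_eq]
    constructor
    · rintro ⟨⟨h, _⟩, h2, h3⟩
      exact ⟨h, h2, h3⟩
    · rintro ⟨h, h2, h3⟩
      refine ⟨⟨h, ?_⟩, h2, h3⟩
      rw [h2, h3]; exact hq2.2

theorem card_other {p : ℕ} {i k : Fin (p + 3)} (hik : k ≠ i) :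
    ((univ.erase i).erase k).card = p + 1 := by
  rw [card_erase_of_mem (mem_erase.mpr ⟨hik, mem_univ k⟩), card_erase_of_mem (mem_univ i)]
  simp

end Brk

open Brk in
theorem brk : BRKStmt := by
  classical
  intro V _ G p P
  refine ⟨?_, ?_, ?_⟩
  · intro D hD
    have h1 : Fintype.piFinset P ⊆ trv G P ∪
        univ.biUnion (fun i => (univ.erase i).biUnion (fun k => bro G P i k)) := by
      intro f hf
      by_cases ht : f ∈ trv G P
      · exact mem_union_left _ ht
      · refine mem_union_right _ ?_
        unfold trv at ht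
        rw [mem_filter] at ht
        have ht2 : ¬ ∀ i j, i ≠ j → G.Adj (f i) (f j) := fun h => ht ⟨hf, h⟩
        push Not at ht2
        obtain ⟨i, j, hij, hadj⟩ := ht2
        rw [mem_biUnion]
        refine ⟨i, mem_univ i, ?_⟩
        rw [mem_biUnion]
        refine ⟨j, mem_erase.mpr ⟨fun h => hij h.symm, mem_univ j⟩, ?_⟩
        unfold bro
        rw [mem_filter]
        exact ⟨hf, hadj⟩
    have h2 : ∏ i, (P i).card ≤ (trv G P).card + ∑ i, ∑ k ∈ univ.erase i, (bro G P i k).card := by
      rw [← Fintype.card_piFinset]
      refine (card_le_card h1).trans ((card_union_le _ _).trans ?_)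
      refine Nat.add_le_add_left ?_ _
      refine card_biUnion_le.trans (Finset.sum_le_sum fun i _ => card_biUnion_le)
    refine h2.trans (Nat.add_le_add_left ?_ _)
    unfold tot
    rw [Finset.sum_mul]
    refine Finset.sum_le_sum fun i _ => ?_
    rw [Finset.sum_mul]
    refine Finset.sum_le_sum fun k hk => ?_
    have hik : k ≠ i := (mem_erase.mp hk).1
    rw [card_bro G P hik]
    refine Nat.mul_le_mul_left _ ?_
    calc ∏ l ∈ (univ.erase i).erase k, (P l).card ≤ D ^ ((univ.erase i).erase k).card :=
          Finset.prod_le_pow_card _ _ _ (fun l _ => hD l)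
      _ = D ^ (p + 1) := by rw [card_other hik]
  · intro d hd
    have h1 : tot G P * d ^ (p + 1) ≤ ∑ i, ∑ k ∈ univ.erase i, (bro G P i k).card := by
      unfold tot
      rw [Finset.sum_mul]
      refine Finset.sum_le_sum fun i _ => ?_
      rw [Finset.sum_mul]
      refine Finset.sum_le_sum fun k hk => ?_
      have hik : k ≠ i := (mem_erase.mp hk).1
      rw [card_bro G P hik]
      refine Nat.mul_le_mul_left _ ?_
      calc d ^ (p + 1) = d ^ ((univ.erase i).erase k).card := by rw [card_other hik]
        _ ≤ ∏ l ∈ (univ.erase i).erase k, (P l).card :=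
          Finset.pow_card_le_prod _ _ _ (fun l _ => hd l)
    have h2 : ∀ i : Fin (p + 3), ∀ k ∈ univ.erase i,
        (bro G P i k).card ≤ (Fintype.piFinset P \ trv G P).card := by
      intro i k hk
      have hik : k ≠ i := (mem_erase.mp hk).1
      refine card_le_card ?_
      intro f hf
      unfold bro at hf
      rw [mem_filter] at hf
      rw [mem_sdiff]
      refine ⟨hf.1, fun ht => ?_⟩
      unfold trv at ht
      rw [mem_filter] at ht
      exact hf.2 (ht.2 i k (fun h => hik h.symm))
    have h3 : ∑ i : Fin (p + 3), ∑ k ∈ univ.erase i, (bro G P i k).card ≤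
        (p + 3) ^ 2 * (Fintype.piFinset P \ trv G P).card := by
      have h4 : ∀ i : Fin (p + 3), ∑ k ∈ univ.erase i, (bro G P i k).card ≤
          (p + 3) * (Fintype.piFinset P \ trv G P).card := by
        intro i
        refine (Finset.sum_le_card_nsmul _ _ _ (h2 i)).trans ?_
        rw [smul_eq_mul]
        refine Nat.mul_le_mul_right _ ?_
        refine (card_erase_le).trans ?_
        simp
      refine (Finset.sum_le_card_nsmul _ _ _ (fun i _ => h4 i)).trans ?_
      rw [smul_eq_mul, card_univ, Fintype.card_fin]
      exact le_of_eq (by ring)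
    have h5 : (Fintype.piFinset P \ trv G P).card + (trv G P).card = ∏ i, (P i).card := by
      rw [← Fintype.card_piFinset]
      refine card_sdiff_add_card_eq_card ?_
      unfold trv
      exact filter_subset _ _
    calc tot G P * d ^ (p + 1) + (p + 3) ^ 2 * (trv G P).card
        ≤ (p + 3) ^ 2 * (Fintype.piFinset P \ trv G P).card + (p + 3) ^ 2 * (trv G P).card :=
          Nat.add_le_add_right (h1.trans h3) _
      _ = (p + 3) ^ 2 * ∏ i, (P i).card := by rw [← Nat.mul_add, h5]
  · intro S hS
    unfold tot
    refine Finset.sum_le_sum fun i _ => Finset.sum_le_sum fun k _ => ?_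
    refine (Finset.sum_le_sum fun u _ => card_le_card ?_).trans
      (Finset.sum_le_sum_of_subset (hS i))
    unfold non
    exact filter_subset_filter _ (hS k)

end Pool.KQ
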